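import Pool.Agent.Lib.MP_2794d1_ag.B05

/-!
OC1: membership of a vector in the range of a frame, expressed by the maximal minors of the frame. The defect of `x` at the
index `f` is `M f * x i - ∑ m, M (update f m i) * x (f m)`; it vanishes on the range, and if `M f` is not zero it vanishes only on
the range. The columns `l ↦ M (update f j l)` are in the range and span it if `M f` is not zero.
-/

namespace MP2794d1.OC

open Matrix

/-- the defect of `x` with respect to the subspace with maximal minors `M` -/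
def defect {n r : ℕ} {R : Type*} [CommRing R] (M : (Fin r → Fin n) → R) (f : Fin r → Fin n)
    (x : Fin n → R) (i : Fin n) : R :=
  M f * x i - ∑ m, M (Function.update f m i) * x (f m)

/-- the `j`-th column of Pluecker coordinates at the index `f` -/
def col {n r : ℕ} {R : Type*} (M : (Fin r → Fin n) → R) (f : Fin r → Fin n) (j : Fin r) :
    Fin n → R := fun l => M (Function.update f j l)

theorem defect_zero {n r : ℕ} (W : Matrix (Fin n) (Fin r) ℂ) (f : Fin r → Fin n)
    (x : Fin n → ℂ) (hx : x ∈ LinearMap.range W.mulVecLin) (i : Fin n) :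
    defect (minor W) f x i = 0 := by
  obtain ⟨u, rfl⟩ := hx
  unfold defect
  have h1 : ∑ m, minor W (Function.update f m i) * (W.mulVecLin u) (f m) =
      ((W * (W.submatrix f id).adjugate) *ᵥ ((W.submatrix f id) *ᵥ u)) i := by
    rw [Matrix.mulVec, dotProduct]
    refine Finset.sum_congr rfl fun m _ => ?_
    rw [B05_mul_adjugate]
    rfl
  have h2 : (W * (W.submatrix f id).adjugate) *ᵥ ((W.submatrix f id) *ᵥ u) =
      minor W f • (W *ᵥ u) := by
    rw [Matrix.mulVec_mulVec, Matrix.mul_assoc, Matrix.adjugate_mul, Matrix.mul_smul,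
      Matrix.mul_one, Matrix.smul_mulVec]
    rfl
  rw [h1, h2, Pi.smul_apply, smul_eq_mul, Matrix.mulVecLin_apply, sub_self]

theorem mem_of_defect {n r : ℕ} (W : Matrix (Fin n) (Fin r) ℂ) (f : Fin r → Fin n)
    (hf : minor W f ≠ 0) (x : Fin n → ℂ) (h : ∀ i, defect (minor W) f x i = 0) :
    x ∈ LinearMap.range W.mulVecLin := by
  refine ⟨(minor W f)⁻¹ • ((W.submatrix f id).adjugate *ᵥ fun m => x (f m)), ?_⟩
  rw [map_smul, Matrix.mulVecLin_apply, Matrix.mulVec_mulVec]
  funext i
  have h1 : ((W * (W.submatrix f id).adjugate) *ᵥ fun m => x (f m)) i =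
      ∑ m, minor W (Function.update f m i) * x (f m) := by
    rw [Matrix.mulVec, dotProduct]
    refine Finset.sum_congr rfl fun m _ => ?_
    rw [B05_mul_adjugate]
  have h2 := h i
  unfold defect at h2
  rw [Pi.smul_apply, smul_eq_mul, h1, ← sub_eq_zero.1 h2, inv_mul_cancel_left₀ hf]

theorem col_mem {n r : ℕ} (W : Matrix (Fin n) (Fin r) ℂ) (f : Fin r → Fin n) (j : Fin r) :
    col (minor W) f j ∈ LinearMap.range W.mulVecLin := by
  refine ⟨fun k => (W.submatrix f id).adjugate k j, ?_⟩
  funext l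
  rw [Matrix.mulVecLin_apply]
  show _ = minor W (Function.update f j l)
  rw [← B05_mul_adjugate]
  rfl

theorem range_le_of_col {n r : ℕ} (W : Matrix (Fin n) (Fin r) ℂ) (f : Fin r → Fin n)
    (hf : minor W f ≠ 0) (S : Submodule ℂ (Fin n → ℂ)) (h : ∀ j, col (minor W) f j ∈ S) :
    LinearMap.range W.mulVecLin ≤ S := by
  intro x hx
  have h1 : x = (minor W f)⁻¹ • ∑ j, x (f j) • col (minor W) f j := by
    funext i
    have h2 := defect_zero W f x hx i
    unfold defect at h2
    rw [Pi.smul_apply, Finset.sum_apply, smul_eq_mul]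
    have h3 : ∑ j, (x (f j) • col (minor W) f j) i = minor W f * x i := by
      rw [sub_eq_zero.1 h2]
      refine Finset.sum_congr rfl fun m _ => ?_
      rw [Pi.smul_apply, smul_eq_mul, mul_comm]
      rfl
    rw [h3, inv_mul_cancel_left₀ hf]
  rw [h1]
  exact S.smul_mem _ (S.sum_mem fun j _ => S.smul_mem _ (h j))

/-- the matrix of defects of the images under `N` of the columns of `M` -/
def bd {n r r' : ℕ} {R : Type*} [CommRing R] (N : Matrix (Fin n) (Fin n) R)
    (M' : (Fin r' → Fin n) → R) (f1 : Fin r' → Fin n) (M : (Fin r → Fin n) → R)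
    (f0 : Fin r → Fin n) (i : Fin n) (j : Fin r) : R :=
  defect M' f1 (N *ᵥ col M f0 j) i

theorem bd_zero {n r r' : ℕ} (N : Matrix (Fin n) (Fin n) ℂ) (W' : Matrix (Fin n) (Fin r') ℂ)
    (f1 : Fin r' → Fin n) (W : Matrix (Fin n) (Fin r) ℂ) (f0 : Fin r → Fin n)
    (h : ∀ x ∈ LinearMap.range W.mulVecLin, N *ᵥ x ∈ LinearMap.range W'.mulVecLin)
    (i : Fin n) (j : Fin r) : bd N (minor W') f1 (minor W) f0 i j = 0 :=
  defect_zero W' f1 _ (h _ (col_mem W f0 j)) i

theorem maps_of_bd {n r r' : ℕ} (N : Matrix (Fin n) (Fin n) ℂ) (W' : Matrix (Fin n) (Fin r') ℂ)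
    (f1 : Fin r' → Fin n) (hf1 : minor W' f1 ≠ 0) (W : Matrix (Fin n) (Fin r) ℂ)
    (f0 : Fin r → Fin n) (hf0 : minor W f0 ≠ 0)
    (h : ∀ i j, bd N (minor W') f1 (minor W) f0 i j = 0) :
    ∀ x ∈ LinearMap.range W.mulVecLin, N *ᵥ x ∈ LinearMap.range W'.mulVecLin := by
  have h1 : LinearMap.range W.mulVecLin ≤ (LinearMap.range W'.mulVecLin).comap N.mulVecLin := by
    refine range_le_of_col W f0 hf0 _ fun j => ?_
    rw [Submodule.mem_comap, Matrix.mulVecLin_apply]
    exact mem_of_defect W' f1 hf1 _ fun i => h i j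
  intro x hx
  exact h1 hx

end MP2794d1.OC
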