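import Pool.Agent.Lib.MP_2794d1_ag.ZL
import Pool.Agent.Lib.MP_2794d1_ag.C10
import Pool.Agent.Lib.MP_2794d1_ag.OC.OC1

/-!
OC2: functions asymptotic to a polynomial in the strip going up, with an error smaller than every power: closed under sums and
products. The Pluecker coordinates of the moving frame are of this kind, the polynomial being the Pluecker coordinate of the
nilpotent orbit.
-/

namespace MP2794d1.OC

open Matrix Complex Filter Topology

/-- `f` is asymptotic to the polynomial `p` in the strip going up, up to all powers -/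
def ZP (f : ℂ → ℂ) (p : Polynomial ℂ) : Prop :=
  ∀ i : ℕ, Tendsto (fun y => y ^ i * (f y - p.eval y)) zlF (𝓝 0)

theorem ZP.poly_mul {f : ℂ → ℂ} {p : Polynomial ℂ} (hf : ZP f p) (r : Polynomial ℂ) :
    Tendsto (fun y => r.eval y * (f y - p.eval y)) zlF (𝓝 0) := by
  have h1 : (fun y => r.eval y * (f y - p.eval y)) =
      fun y => ∑ k ∈ Finset.range (r.natDegree + 1), r.coeff k * (y ^ k * (f y - p.eval y)) := by
    funext y
    rw [Polynomial.eval_eq_sum_range, Finset.sum_mul]
    exact Finset.sum_congr rfl fun k _ => by ring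
  rw [h1]
  have h2 := tendsto_finsetSum (f := fun k (y : ℂ) => r.coeff k * (y ^ k * (f y - p.eval y)))
    (x := zlF) (a := fun k => r.coeff k * 0) (Finset.range (r.natDegree + 1))
    (fun k _ => (hf k).const_mul (r.coeff k))
  simpa using h2

theorem ZP.add {f g : ℂ → ℂ} {p q : Polynomial ℂ} (hf : ZP f p) (hg : ZP g q) :
    ZP (fun y => f y + g y) (p + q) := by
  intro i
  have h := (hf i).add (hg i)
  rw [add_zero] at h
  refine h.congr fun y => ?_
  rw [Polynomial.eval_add]
  ring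

theorem ZP.neg {f : ℂ → ℂ} {p : Polynomial ℂ} (hf : ZP f p) : ZP (fun y => -f y) (-p) := by
  intro i
  have h := (hf i).neg
  rw [neg_zero] at h
  refine h.congr fun y => ?_
  rw [Polynomial.eval_neg]
  ring

theorem ZP.sub {f g : ℂ → ℂ} {p q : Polynomial ℂ} (hf : ZP f p) (hg : ZP g q) :
    ZP (fun y => f y - g y) (p - q) := by
  have h := hf.add hg.neg
  rw [← sub_eq_add_neg] at h
  exact h

theorem ZP.mul {f g : ℂ → ℂ} {p q : Polynomial ℂ} (hf : ZP f p) (hg : ZP g q) :
    ZP (fun y => f y * g y) (p * q) := by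
  intro i
  have h1 := (hf i).mul (hg 0)
  have h2 := hg.poly_mul (Polynomial.X ^ i * p)
  have h3 := hf.poly_mul (Polynomial.X ^ i * q)
  have h := (h1.add h2).add h3
  rw [mul_zero, add_zero, add_zero] at h
  refine h.congr fun y => ?_
  simp only [Polynomial.eval_mul, Polynomial.eval_pow, Polynomial.eval_X, pow_zero, one_mul]
  ring

theorem ZP.poly (p : Polynomial ℂ) : ZP (fun y => p.eval y) p := by
  intro i
  simp only [sub_self, mul_zero]
  exact tendsto_const_nhds

theorem ZP.const (c : ℂ) : ZP (fun _ => c) (Polynomial.C c) := by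
  have h := ZP.poly (Polynomial.C c)
  simpa using h

theorem ZP.zero : ZP (fun _ => 0) 0 := by
  have h := ZP.poly 0
  simpa using h

theorem ZP.sum {ι : Type} (s : Finset ι) (f : ι → ℂ → ℂ) (p : ι → Polynomial ℂ)
    (h : ∀ k ∈ s, ZP (f k) (p k)) : ZP (fun y => ∑ k ∈ s, f k y) (∑ k ∈ s, p k) := by
  classical
  induction s using Finset.induction_on with
  | empty => simpa using ZP.zero
  | insert a s ha ih =>
    have h1 := (h a (Finset.mem_insert_self a s)).add
      (ih fun k hk => h k (Finset.mem_insert_of_mem hk))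
    rw [Finset.sum_insert ha]
    have h2 : (fun y => ∑ k ∈ insert a s, f k y) = fun y => f a y + ∑ k ∈ s, f k y := by
      funext y
      rw [Finset.sum_insert ha]
    rw [h2]
    exact h1

theorem ZP.hol (h : ℂ → ℂ) (hh : AnalyticAt ℂ h 0) :
    ZP (fun y => h (qq y)) (Polynomial.C (h 0)) := by
  intro i
  refine (zl_err hh i).congr fun y => ?_
  rw [Polynomial.eval_C]

theorem ZP.tendsto_zero {f : ℂ → ℂ} {p : Polynomial ℂ} (hf : ZP f p) (hp : p = 0) :
    Tendsto f zlF (𝓝 0) := by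
  refine (hf 0).congr fun y => ?_
  rw [hp]
  simp

theorem ZP.lower {f : ℂ → ℂ} {p : Polynomial ℂ} (hf : ZP f p) (hp : p ≠ 0) :
    ∃ c : ℝ, 0 < c ∧ ∀ᶠ y in zlF, c ≤ ‖f y‖ := by
  obtain ⟨⟨c, hc, h1⟩, -⟩ := zl_poly hp
  refine ⟨c / 2, half_pos hc, ?_⟩
  have h2 : Tendsto (fun y => f y - p.eval y) zlF (𝓝 0) := by
    refine (hf 0).congr fun y => ?_
    rw [pow_zero, one_mul]
  have h3 : ∀ᶠ y in zlF, ‖f y - p.eval y‖ < c / 2 := by
    have h4 := h2.norm
    rw [norm_zero] at h4
    exact h4.eventually_lt_const (half_pos hc)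
  filter_upwards [h1, h3] with y hy1 hy3
  have h5 := norm_sub_norm_le (p.eval y) (p.eval y - f y)
  rw [sub_sub_cancel, norm_sub_rev (p.eval y) (f y)] at h5
  linarith

/-- the polynomial of a Pluecker coordinate of the nilpotent orbit -/
noncomputable def vp {ι : Type} [Fintype ι] [DecidableEq ι] (G : PolyGroup ι) (v : ι → ℂ) (j : ι) :
    Polynomial ℂ := ∑ i, (G.P j i).map (algebraMap ℚ ℂ) * Polynomial.C (v i)

theorem vp_eval {ι : Type} [Fintype ι] [DecidableEq ι] (G : PolyGroup ι) (v : ι → ℂ) (j : ι)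
    (s : ℂ) : (vp G v j).eval s = (G.E s *ᵥ v) j := by
  unfold vp
  rw [Polynomial.eval_finsetSum]
  have h1 : (G.E s *ᵥ v) j = ∑ i, Polynomial.aeval s (G.P j i) * v i := rfl
  rw [h1]
  refine Finset.sum_congr rfl fun i _ => ?_
  rw [Polynomial.eval_mul, Polynomial.eval_C, Polynomial.eval_map_algebraMap]

theorem ZP.vec {ι : Type} [Fintype ι] [DecidableEq ι] (G : PolyGroup ι) (Mh : ℂ → ι → ℂ)
    (hM : ∀ i, AnalyticAt ℂ (fun q => Mh q i) 0) (j : ι) :
    ZP (fun y => (G.E y *ᵥ Mh (qq y)) j) (vp G (Mh 0) j) := by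
  have h1 := ZP.sum Finset.univ (fun i y => ((G.P j i).map (algebraMap ℚ ℂ)).eval y * Mh (qq y) i)
    (fun i => (G.P j i).map (algebraMap ℚ ℂ) * Polynomial.C (Mh 0 i))
    (fun i _ => (ZP.poly _).mul (ZP.hol (fun q => Mh q i) (hM i)))
  have h2 : (fun y => (G.E y *ᵥ Mh (qq y)) j) =
      fun y => ∑ i, ((G.P j i).map (algebraMap ℚ ℂ)).eval y * Mh (qq y) i := by
    funext y
    have h3 : (G.E y *ᵥ Mh (qq y)) j = ∑ i, Polynomial.aeval y (G.P j i) * Mh (qq y) i := rfl
    rw [h3]
    refine Finset.sum_congr rfl fun i _ => ?_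
    rw [Polynomial.eval_map_algebraMap]
  rw [h2]
  exact h1

end MP2794d1.OC
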