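import Pool.Agent.Lib.MP_2794d1_ag.C11
import Pool.Agent.Lib.MP_2794d1_ag.S04
import Pool.Agent.Lib.MP_2794d1_ag.OC.OC2

/-!
OC3: the limit flag is transversal: `N` maps the range of `W p 0` into the range of `W (p - 1) 0` (Griffiths transversality of the
nilpotent orbit). For `z` high in the half plane, `s y = uexp N y *ᵥ (W p (qq y) *ᵥ u)` is a section of `F p`, with derivative
`uexp N y *ᵥ (N *ᵥ (W p q *ᵥ u) + (2 π i q) • (W p)' q *ᵥ u)` in `F (p - 1) = range (uexp N y * W (p - 1) q)`; take off `uexp N y`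
and let `q` tend to `0` in the defect.
-/

namespace MP2794d1.OC

open Matrix Complex Filter Topology

theorem analytic_defect {n r : ℕ} (W : ℂ → Matrix (Fin n) (Fin r) ℂ)
    (hW : ∀ i j, AnalyticAt ℂ (fun q => W q i j) 0) (x : ℂ → Fin n → ℂ)
    (hx : ∀ i, AnalyticAt ℂ (fun q => x q i) 0) (f : Fin r → Fin n) (i : Fin n) :
    AnalyticAt ℂ (fun q => defect (minor (W q)) f (x q) i) 0 := by
  unfold defect
  refine ((C11_minor_analytic W hW f).mul (hx i)).sub ?_
  refine Finset.analyticAt_fun_sum _ fun m _ => ?_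
  exact (C11_minor_analytic W hW _).mul (hx _)

theorem trans_limit {n r r' : ℕ} (V : PolVHS n) (N : Matrix (Fin n) (Fin n) ℂ) (hN : N ^ n = 0)
    (p : ℤ) (W : ℂ → Matrix (Fin n) (Fin r) ℂ) (W' : ℂ → Matrix (Fin n) (Fin r') ℂ) (a a' : ℝ)
    (hW : ∀ i j, AnalyticAt ℂ (fun q => W q i j) 0)
    (hW' : ∀ i j, AnalyticAt ℂ (fun q => W' q i j) 0)
    (hli' : LinearIndependent ℂ (W' 0)ᵀ)
    (hF : ∀ z : ℂ, a < z.im → V.F p z = LinearMap.range (uexp N z * W (qq z)).mulVecLin)
    (hF' : ∀ z : ℂ, a' < z.im →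
      V.F (p - 1) z = LinearMap.range (uexp N z * W' (qq z)).mulVecLin)
    (x : Fin n → ℂ) (hx : x ∈ LinearMap.range (W 0).mulVecLin) :
    N *ᵥ x ∈ LinearMap.range (W' 0).mulVecLin := by
  obtain ⟨u, rfl⟩ := hx
  rw [Matrix.mulVecLin_apply]
  obtain ⟨f1, hf1⟩ := exists_minor_ne (W' 0) hli'
  -- the analytic vector
  set D : ℂ → Matrix (Fin n) (Fin r) ℂ := fun q => Matrix.of fun i j => deriv (fun q => W q i j) q
    with hD
  set X : ℂ → Fin n → ℂ := fun q => N *ᵥ (W q *ᵥ u) +
    (2 * (Real.pi : ℂ) * Complex.I * q) • (D q *ᵥ u) with hX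
  have hmv : ∀ (A : ℂ → Matrix (Fin n) (Fin r) ℂ), (∀ i j, AnalyticAt ℂ (fun q => A q i j) 0) →
      ∀ i, AnalyticAt ℂ (fun q => (A q *ᵥ u) i) 0 := by
    intro A hA i
    have h1 : (fun q => (A q *ᵥ u) i) = fun q => ∑ j, A q i j * u j := by
      funext q
      rfl
    rw [h1]
    exact Finset.analyticAt_fun_sum _ fun j _ => (hA i j).mul analyticAt_const
  have hXan : ∀ i, AnalyticAt ℂ (fun q => X q i) 0 := by
    intro i
    have h1 : (fun q => X q i) = fun q => (∑ j, N i j * (W q *ᵥ u) j) +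
        (2 * (Real.pi : ℂ) * Complex.I * q) * (D q *ᵥ u) i := by
      funext q
      rfl
    rw [h1]
    refine (Finset.analyticAt_fun_sum _ fun j _ => analyticAt_const.mul (hmv W hW j)).add ?_
    refine (analyticAt_const.mul analyticAt_id).mul (hmv D (fun i j => ?_) i)
    exact (hW i j).deriv
  have hX0 : X 0 = N *ᵥ (W 0 *ᵥ u) := by
    rw [hX]
    simp
  -- membership for q = qq z
  have hana : ∀ᶠ q in 𝓝 (0 : ℂ), ∀ i j, AnalyticAt ℂ (fun q => W q i j) q := by
    rw [Filter.eventually_all]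
    intro i
    rw [Filter.eventually_all]
    intro j
    exact (hW i j).eventually_analyticAt
  obtain ⟨ε, hε, hball⟩ := Metric.eventually_nhds_iff.1 hana
  obtain ⟨a3, ha3⟩ := C11_qq_small ε hε
  have hmem : ∀ z : ℂ, max (max a a') (max a3 0) < z.im →
      X (qq z) ∈ LinearMap.range (W' (qq z)).mulVecLin := by
    intro z hz
    have hz1 : a < z.im := lt_of_le_of_lt ((le_max_left _ _).trans (le_max_left _ _)) hz
    have hz2 : a' < z.im := lt_of_le_of_lt ((le_max_right _ _).trans (le_max_left _ _)) hz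
    have hz3 : a3 < z.im := lt_of_le_of_lt ((le_max_left _ _).trans (le_max_right _ _)) hz
    have hz0 : 0 < z.im := lt_of_le_of_lt ((le_max_right _ _).trans (le_max_right _ _)) hz
    have hW1 : ∀ i j, AnalyticAt ℂ (fun q => W q i j) (qq z) := hball (by
      rw [dist_zero_right]
      exact ha3 z hz3)
    have hqd : HasDerivAt qq (2 * (Real.pi : ℂ) * Complex.I * qq z) z := zl_qq_deriv z
    have hqan : AnalyticAt ℂ qq z := by
      unfold qq
      fun_prop
    -- the section
    set v : ℂ → Fin n → ℂ := fun y => W (qq y) *ᵥ u with hv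
    have hvd : ∀ k, HasDerivAt (fun y => v y k)
        ((2 * (Real.pi : ℂ) * Complex.I * qq z) * (D (qq z) *ᵥ u) k) z := by
      intro k
      have h1 : ∀ j, HasDerivAt (fun y => W (qq y) k j)
          (deriv (fun q => W q k j) (qq z) * (2 * (Real.pi : ℂ) * Complex.I * qq z)) z := by
        intro j
        have h2 : HasDerivAt (fun q => W q k j) (deriv (fun q => W q k j) (qq z)) (qq z) :=
          (hW1 k j).differentiableAt.hasDerivAt
        exact h2.comp z hqd
      have h3 : HasDerivAt (fun y => ∑ j, W (qq y) k j * u j)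
          (∑ j, deriv (fun q => W q k j) (qq z) * (2 * (Real.pi : ℂ) * Complex.I * qq z) * u j) z :=
        HasDerivAt.fun_sum fun j _ => (h1 j).mul_const (u j)
      have h4 : (2 * (Real.pi : ℂ) * Complex.I * qq z) * (D (qq z) *ᵥ u) k =
          ∑ j, deriv (fun q => W q k j) (qq z) * (2 * (Real.pi : ℂ) * Complex.I * qq z) * u j := by
        have h5 : (D (qq z) *ᵥ u) k = ∑ j, deriv (fun q => W q k j) (qq z) * u j := rfl
        rw [h5, Finset.mul_sum]
        exact Finset.sum_congr rfl fun j _ => by ring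
      rw [h4]
      exact h3
    have hsd : ∀ i, HasDerivAt (fun y => (uexp N y *ᵥ v y) i) ((uexp N z *ᵥ X (qq z)) i) z := by
      intro i
      have h1 : HasDerivAt (fun y => ∑ k, uexp N y i k * v y k)
          (∑ k, ((N * uexp N z) i k * v z k + uexp N z i k *
            ((2 * (Real.pi : ℂ) * Complex.I * qq z) * (D (qq z) *ᵥ u) k))) z :=
        HasDerivAt.fun_sum fun k _ => (uexp_deriv N hN z i k).mul (hvd k)
      have h2 : (uexp N z *ᵥ X (qq z)) i = ∑ k, ((N * uexp N z) i k * v z k + uexp N z i k *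
            ((2 * (Real.pi : ℂ) * Complex.I * qq z) * (D (qq z) *ᵥ u) k)) := by
        rw [Finset.sum_add_distrib]
        have h3 : ∑ k, (N * uexp N z) i k * v z k = (uexp N z *ᵥ (N *ᵥ v z)) i := by
          rw [Matrix.mulVec_mulVec, ← uexp_comm N N rfl z]
          rfl
        rw [h3, hX]
        show (uexp N z *ᵥ (N *ᵥ (W (qq z) *ᵥ u) +
          (2 * (Real.pi : ℂ) * Complex.I * qq z) • (D (qq z) *ᵥ u))) i = _
        rw [Matrix.mulVec_add, Pi.add_apply]
        rfl
      rw [h2]
      exact h1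
    have han : ∀ i, AnalyticAt ℂ (fun y => (uexp N y *ᵥ v y) i) z := by
      intro i
      have h1 : (fun y => (uexp N y *ᵥ v y) i) = fun y => ∑ k, uexp N y i k * ∑ j, W (qq y) k j * u j := by
        funext y
        rfl
      rw [h1]
      refine Finset.analyticAt_fun_sum _ fun k _ => ?_
      refine AnalyticAt.mul ?_ ?_
      · have h2 : Differentiable ℂ (fun y => uexp N y i k) := fun y =>
          (uexp_deriv N hN y i k).differentiableAt
        exact h2.analyticAt z
      · refine Finset.analyticAt_fun_sum _ fun j _ => ?_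
        refine AnalyticAt.mul ?_ analyticAt_const
        exact (hW1 k j).comp hqan
    have hev : ∀ᶠ y in 𝓝 z, uexp N y *ᵥ v y ∈ V.F p y := by
      filter_upwards [(isOpen_lt continuous_const Complex.continuous_im).mem_nhds hz1] with y hy
      rw [hF y hy]
      refine ⟨u, ?_⟩
      rw [Matrix.mulVecLin_apply, ← Matrix.mulVec_mulVec]
    have hg := V.griffiths p z hz0 (fun y => uexp N y *ᵥ v y) han hev
    have e : (fun i => deriv (fun y => (uexp N y *ᵥ v y) i) z) = uexp N z *ᵥ X (qq z) := by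
      funext i
      exact (hsd i).deriv
    rw [e, hF' z hz2] at hg
    obtain ⟨w, hw⟩ := hg
    rw [Matrix.mulVecLin_apply, ← Matrix.mulVec_mulVec] at hw
    refine ⟨w, ?_⟩
    have h5 := congrArg (fun t => uexp N (-z) *ᵥ t) hw
    simp only [Matrix.mulVec_mulVec] at h5
    rw [← Matrix.mul_assoc, uexp_neg_mul N hN, Matrix.one_mul] at h5
    rw [Matrix.one_mulVec] at h5
    exact h5
  -- pass to the limit
  rw [← hX0]
  refine mem_of_defect (W' 0) f1 hf1 _ fun i => ?_
  have hc : ContinuousAt (fun q => defect (minor (W' q)) f1 (X q) i) 0 :=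
    (analytic_defect W' hW' X hXan f1 i).continuousAt
  have h1 : Tendsto (fun y => defect (minor (W' (qq y))) f1 (X (qq y)) i) zlF
      (𝓝 (defect (minor (W' 0)) f1 (X 0) i)) := hc.tendsto.comp zl_qq
  have h2 : Tendsto (fun y => defect (minor (W' (qq y))) f1 (X (qq y)) i) zlF (𝓝 0) := by
    refine Tendsto.congr' ?_ (tendsto_const_nhds (x := (0 : ℂ)))
    refine (zl_ev.2 ⟨max (max a a') (max a3 0), fun y _ hy => ?_⟩)
    exact (defect_zero (W' (qq y)) f1 _ (hmem y hy) i).symm
  have : zlF.NeBot := by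
    rw [Filter.neBot_iff]
    intro hbot
    have h3 : ∀ᶠ y in zlF, False := by
      rw [hbot]
      exact Filter.eventually_bot
    obtain ⟨b, hb⟩ := zl_ev.1 h3
    exact hb ⟨0, b + 1⟩ (by simp) (by simp)
  exact tendsto_nhds_unique h1 h2

end MP2794d1.OC
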