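import Pool.Agent.Lib.MP_2794d1_ag.C12b
import Pool.Agent.Lib.MP_2794d1_ag.OC.OC3

/-!
OC4: one CM point of small height forces `N F^p ⊂ F^(p-1)` everywhere. The defects `bd` of the moving flag are `Zfun`s
asymptotic to the defects of the nilpotent orbit, which vanish by OC3; so such a defect is eventually zero, or it has no zeros
high in the strip and is at most `exp (-im y)`. In the second case Liouville at a CM point (the defect times the two scale
factors is an `AlgFam`; the scale factors are bounded because one Pluecker coordinate is bounded below) bounds the height from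
below by `exp (δ im z)`. If all the defects are eventually zero, continuation (`cont_map`).
-/

namespace MP2794d1.OC

open Matrix Complex Filter Topology

theorem Zfun_bd {n r r' : ℕ} (N : Matrix (Fin n) (Fin n) ℂ) (M' : ℂ → (Fin r' → Fin n) → ℂ)
    (hM' : ∀ f, Zfun (fun y => M' y f)) (f1 : Fin r' → Fin n) (M : ℂ → (Fin r → Fin n) → ℂ)
    (hM : ∀ f, Zfun (fun y => M y f)) (f0 : Fin r → Fin n) (i : Fin n) (j : Fin r) :
    Zfun (fun y => bd N (M' y) f1 (M y) f0 i j) := by
  have hx : ∀ k, Zfun (fun y => (N *ᵥ col (M y) f0 j) k) := fun k =>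
    Zfun.sum Finset.univ (fun l y => N k l * M y (Function.update f0 j l))
      fun l _ => (Zfun.const _).mul (hM _)
  have h1 : (fun y => bd N (M' y) f1 (M y) f0 i j) = fun y =>
      M' y f1 * (N *ᵥ col (M y) f0 j) i +
        (-1) * ∑ m, M' y (Function.update f1 m i) * (N *ᵥ col (M y) f0 j) (f1 m) := by
    funext y
    unfold bd defect
    ring
  rw [h1]
  exact ((hM' f1).mul (hx i)).add ((Zfun.const (-1)).mul
    (Zfun.sum Finset.univ _ fun m _ => (hM' _).mul (hx _)))

theorem ZP_bd {n r r' : ℕ} (N : Matrix (Fin n) (Fin n) ℂ) (M' : ℂ → (Fin r' → Fin n) → ℂ)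
    (P' : (Fin r' → Fin n) → Polynomial ℂ) (hM' : ∀ f, ZP (fun y => M' y f) (P' f))
    (f1 : Fin r' → Fin n) (M : ℂ → (Fin r → Fin n) → ℂ) (P : (Fin r → Fin n) → Polynomial ℂ)
    (hM : ∀ f, ZP (fun y => M y f) (P f)) (f0 : Fin r → Fin n) (i : Fin n) (j : Fin r) :
    ZP (fun y => bd N (M' y) f1 (M y) f0 i j) (bd (N.map Polynomial.C) P' f1 P f0 i j) := by
  have hx : ∀ k, ZP (fun y => (N *ᵥ col (M y) f0 j) k) ((N.map Polynomial.C *ᵥ col P f0 j) k) :=
    fun k => ZP.sum Finset.univ (fun l y => N k l * M y (Function.update f0 j l))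
      (fun l => Polynomial.C (N k l) * P (Function.update f0 j l))
      fun l _ => (ZP.const _).mul (hM _)
  exact ((hM' f1).mul (hx i)).sub (ZP.sum Finset.univ _ _ fun m _ => (hM' _).mul (hx _))

theorem eval_bd {n r r' : ℕ} (N : Matrix (Fin n) (Fin n) ℂ) (P' : (Fin r' → Fin n) → Polynomial ℂ)
    (f1 : Fin r' → Fin n) (P : (Fin r → Fin n) → Polynomial ℂ) (f0 : Fin r → Fin n) (i : Fin n)
    (j : Fin r) (s : ℂ) : (bd (N.map Polynomial.C) P' f1 P f0 i j).eval s =
      bd N (fun f => (P' f).eval s) f1 (fun f => (P f).eval s) f0 i j := by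
  have hx : ∀ k, ((N.map Polynomial.C *ᵥ col P f0 j) k).eval s =
      (N *ᵥ col (fun f => (P f).eval s) f0 j) k := by
    intro k
    show (∑ l, Polynomial.C (N k l) * P (Function.update f0 j l)).eval s =
      ∑ l, N k l * (P (Function.update f0 j l)).eval s
    rw [Polynomial.eval_finsetSum]
    exact Finset.sum_congr rfl fun l _ => by rw [Polynomial.eval_mul, Polynomial.eval_C]
  unfold bd defect
  rw [Polynomial.eval_sub, Polynomial.eval_mul, hx, Polynomial.eval_finsetSum]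
  congr 1
  exact Finset.sum_congr rfl fun m _ => by rw [Polynomial.eval_mul, hx]

theorem alg_bd {I : Type} {H : I → ℝ} (hH : ∀ i, 1 ≤ H i) {n r r' : ℕ}
    (N : Matrix (Fin n) (Fin n) ℚ) (M' : I → (Fin r' → Fin n) → ℂ) (c' : I → ℂ)
    (hM' : ∀ f, AlgFam H (fun i => c' i * M' i f)) (f1 : Fin r' → Fin n)
    (M : I → (Fin r → Fin n) → ℂ) (c : I → ℂ) (hM : ∀ f, AlgFam H (fun i => c i * M i f))
    (f0 : Fin r → Fin n) (a : Fin n) (j : Fin r) :
    AlgFam H (fun i => c' i * c i * bd (cm N) (M' i) f1 (M i) f0 a j) := by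
  have hx : ∀ k, AlgFam H (fun i => c i * (cm N *ᵥ col (M i) f0 j) k) := by
    intro k
    have h1 := C12b_alg_lin hH (fun l => N k l) (fun l i => c i * M i (Function.update f0 j l))
      fun l => hM _
    have h2 : (fun i => c i * (cm N *ᵥ col (M i) f0 j) k) =
        fun i => ∑ l, (N k l : ℂ) * (c i * M i (Function.update f0 j l)) := by
      funext i
      have h3 : (cm N *ᵥ col (M i) f0 j) k = ∑ l, (N k l : ℂ) * M i (Function.update f0 j l) := rfl
      rw [h3, Finset.mul_sum]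
      exact Finset.sum_congr rfl fun l _ => by ring
    rw [h2]
    exact h1
  have hy : ∀ f k, (fun i => (c' i * M' i f) * (c i * (cm N *ᵥ col (M i) f0 j) k)) ∈
      algSub H hH := fun f k => AlgFam.mul hH (hM' f) (hx k)
  rw [← mem_algSub hH]
  have h1 : (fun i => c' i * c i * bd (cm N) (M' i) f1 (M i) f0 a j) =
      (fun i => (c' i * M' i f1) * (c i * (cm N *ᵥ col (M i) f0 j) a)) -
        ∑ m, fun i => (c' i * M' i (Function.update f1 m a)) *
          (c i * (cm N *ᵥ col (M i) f0 j) (f1 m)) := by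
    funext i
    rw [Pi.sub_apply, Finset.sum_apply]
    unfold bd defect
    rw [mul_sub, Finset.mul_sum]
    congr 1
    · ring
    · exact Finset.sum_congr rfl fun m _ => by ring
  rw [h1]
  exact (algSub H hH).sub_mem (hy _ _) ((algSub H hH).sum_mem fun m _ => hy _ _)

/-- `K h ^ m < exp y` if `h ≤ exp (δ y)`, `δ` small and `y` large -/
theorem growth (K : ℝ) (hK : 0 ≤ K) (m : ℕ) : ∃ δ : ℝ, 0 < δ ∧ ∃ Y : ℝ, 0 ≤ Y ∧ ∀ y h : ℝ, Y < y →
    1 ≤ h → h ≤ Real.exp (δ * y) → K * h ^ m < Real.exp y := by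
  refine ⟨1 / (2 * (m + 1)), by positivity, max 0 (2 * Real.log (K + 1)), le_max_left _ _,
    fun y h hy h1 hh => ?_⟩
  have hy0 : 0 < y := lt_of_le_of_lt (le_max_left _ _) hy
  have hy1 : 2 * Real.log (K + 1) < y := lt_of_le_of_lt (le_max_right _ _) hy
  have e1 : h ^ m ≤ Real.exp (y / 2) := by
    calc h ^ m ≤ (Real.exp (1 / (2 * ((m : ℝ) + 1)) * y)) ^ m :=
          pow_le_pow_left₀ (by linarith) hh m
      _ = Real.exp (m * (1 / (2 * ((m : ℝ) + 1)) * y)) := by rw [← Real.exp_nat_mul]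
      _ ≤ Real.exp (y / 2) := by
        apply Real.exp_le_exp.2
        have hm : (0 : ℝ) ≤ m := Nat.cast_nonneg m
        have e2 : (m : ℝ) * (1 / (2 * ((m : ℝ) + 1)) * y) = y / 2 * (m / (m + 1)) := by
          field_simp
        rw [e2]
        have e3 : (m : ℝ) / (m + 1) ≤ 1 := by
          rw [div_le_one (by linarith)]
          linarith
        have := mul_le_mul_of_nonneg_left e3 (by linarith : (0 : ℝ) ≤ y / 2)
        linarith
  have e2 : K + 1 < Real.exp (y / 2) := by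
    rw [← Real.log_lt_iff_lt_exp (by linarith)]
    linarith
  calc K * h ^ m ≤ K * Real.exp (y / 2) := mul_le_mul_of_nonneg_left e1 hK
    _ < Real.exp (y / 2) * Real.exp (y / 2) := by
      apply mul_lt_mul_of_pos_right _ (Real.exp_pos _)
      linarith
    _ = Real.exp y := by
      rw [← Real.exp_add]
      congr 1
      ring

theorem one_p {n r r' : ℕ} (V : PolVHS n) (N : Matrix (Fin n) (Fin n) ℚ) (hN : N ^ n = 0)
    (p : ℤ) (W : ℂ → Matrix (Fin n) (Fin r) ℂ) (W' : ℂ → Matrix (Fin n) (Fin r') ℂ) (a a' : ℝ)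
    (hW : ∀ i j, AnalyticAt ℂ (fun q => W q i j) 0)
    (hW' : ∀ i j, AnalyticAt ℂ (fun q => W' q i j) 0)
    (hli : LinearIndependent ℂ (W 0)ᵀ) (hli' : LinearIndependent ℂ (W' 0)ᵀ)
    (hF : ∀ z : ℂ, a < z.im → V.F p z = LinearMap.range (uexp (cm N) z * W (qq z)).mulVecLin)
    (hF' : ∀ z : ℂ, a' < z.im →
      V.F (p - 1) z = LinearMap.range (uexp (cm N) z * W' (qq z)).mulVecLin) :
    ∃ δ : ℝ, 0 < δ ∧ ∃ Y : ℝ, ∀ (z : ℂ) (H : ℝ), |z.re| ≤ 1 → Y < z.im → 1 ≤ H → IsCM V z H →
      H ≤ Real.exp (δ * z.im) →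
      ∀ y : ℂ, 0 < y.im → ∀ x ∈ V.F p y, cm N *ᵥ x ∈ V.F (p - 1) y := by
  classical
  obtain ⟨G, hG⟩ := exists_tensGroup r N hN
  obtain ⟨G', hG'⟩ := exists_tensGroup r' N hN
  have hNn := cm_pow N hN
  obtain ⟨f0, hf0⟩ := exists_minor_ne (W 0) hli
  obtain ⟨f1, hf1⟩ := exists_minor_ne (W' 0) hli'
  have hMh : ∀ f, AnalyticAt ℂ (fun q => (fun g => minor (W q) g) f) 0 :=
    C11_minor_analytic W hW
  have hMh' : ∀ f, AnalyticAt ℂ (fun q => (fun g => minor (W' q) g) f) 0 :=
    C11_minor_analytic W' hW'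
  have hk : ∀ (y : ℂ) (A : Matrix (Fin n) (Fin r) ℂ),
      G.E y *ᵥ (fun g => minor A g) = fun f => minor (uexp (cm N) y * A) f := fun y A =>
    C11_key N G hG y A
  have hk' : ∀ (y : ℂ) (A : Matrix (Fin n) (Fin r') ℂ),
      G'.E y *ᵥ (fun g => minor A g) = fun f => minor (uexp (cm N) y * A) f := fun y A =>
    C11_key N G' hG' y A
  set M : ℂ → (Fin r → Fin n) → ℂ := fun y => G.E y *ᵥ (fun g => minor (W (qq y)) g) with hM
  set M' : ℂ → (Fin r' → Fin n) → ℂ := fun y => G'.E y *ᵥ (fun g => minor (W' (qq y)) g) with hM'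
  have hMz : ∀ f, Zfun (fun y => M y f) := fun f =>
    c10_zfun_vec G (fun q g => minor (W q) g) hMh f
  have hMz' : ∀ f, Zfun (fun y => M' y f) := fun f =>
    c10_zfun_vec G' (fun q g => minor (W' q) g) hMh' f
  have hMp : ∀ f, ZP (fun y => M y f) (vp G (fun g => minor (W 0) g) f) := fun f =>
    ZP.vec G (fun q g => minor (W q) g) hMh f
  have hMp' : ∀ f, ZP (fun y => M' y f) (vp G' (fun g => minor (W' 0) g) f) := fun f =>
    ZP.vec G' (fun q g => minor (W' q) g) hMh' f
  have hne : vp G (fun g => minor (W 0) g) f0 ≠ 0 := by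
    intro h
    have h1 := vp_eval G (fun g => minor (W 0) g) f0 0
    rw [h, hk, uexp_zero, Matrix.one_mul, Polynomial.eval_zero] at h1
    exact hf0 h1.symm
  have hne' : vp G' (fun g => minor (W' 0) g) f1 ≠ 0 := by
    intro h
    have h1 := vp_eval G' (fun g => minor (W' 0) g) f1 0
    rw [h, hk', uexp_zero, Matrix.one_mul, Polynomial.eval_zero] at h1
    exact hf1 h1.symm
  obtain ⟨ε, hε, hlow⟩ := (hMp f0).lower hne
  obtain ⟨ε', hε', hlow'⟩ := (hMp' f1).lower hne'
  obtain ⟨a1, ha1⟩ := zl_ev.1 hlow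
  obtain ⟨a1', ha1'⟩ := zl_ev.1 hlow'
  -- the defects
  set b : Fin n → Fin r → ℂ → ℂ := fun i j y => bd (cm N) (M' y) f1 (M y) f0 i j with hb
  have hbz : ∀ i j, Zfun (b i j) := fun i j => Zfun_bd (cm N) M' hMz' f1 M hMz f0 i j
  have hb0 : ∀ i j, Tendsto (b i j) zlF (𝓝 0) := by
    intro i j
    refine (ZP_bd (cm N) M' _ hMp' f1 M _ hMp f0 i j).tendsto_zero ?_
    apply Polynomial.funext
    intro s
    rw [eval_bd, Polynomial.eval_zero]
    have h1 : (fun f => (vp G (fun g => minor (W 0) g) f).eval s) =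
        minor (uexp (cm N) s * W 0) := by
      funext f
      rw [vp_eval, hk]
    have h2 : (fun f => (vp G' (fun g => minor (W' 0) g) f).eval s) =
        minor (uexp (cm N) s * W' 0) := by
      funext f
      rw [vp_eval, hk']
    rw [h1, h2]
    refine bd_zero (cm N) (uexp (cm N) s * W' 0) f1 (uexp (cm N) s * W 0) f0 ?_ i j
    rintro x ⟨u, rfl⟩
    obtain ⟨w, hw⟩ := trans_limit V (cm N) hNn p W W' a a' hW hW' hli' hF hF'
      ((W 0).mulVecLin u) ⟨u, rfl⟩
    refine ⟨w, ?_⟩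
    rw [Matrix.mulVecLin_apply, Matrix.mulVecLin_apply] at hw
    have e : uexp (cm N) s * cm N = cm N * uexp (cm N) s := (uexp_comm (cm N) (cm N) rfl s).symm
    rw [Matrix.mulVecLin_apply, Matrix.mulVecLin_apply, ← Matrix.mulVec_mulVec, hw,
      Matrix.mulVec_mulVec (W 0 *ᵥ u), e, ← Matrix.mulVec_mulVec (W 0 *ᵥ u),
      Matrix.mulVec_mulVec u (uexp (cm N) s)]
  by_cases hall : ∀ i j, ∃ a2 : ℝ, ∀ y : ℂ, a2 < y.im → b i j y = 0
  · -- all the defects are eventually zero: continuation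
    choose a2 ha2 using hall
    refine ⟨1, one_pos, 0, fun z H _ _ _ _ _ => ?_⟩
    set A : ℝ := max (max (max a a') (max a1 a1')) (max 0 (∑ i, ∑ j, |a2 i j|)) with hA
    have hA2 : ∀ i j, a2 i j ≤ A := by
      intro i j
      refine (le_abs_self _).trans (le_trans ?_ ((le_max_right _ _).trans (le_max_right _ _)))
      refine le_trans ?_ (Finset.single_le_sum (f := fun i => ∑ j, |a2 i j|)
        (fun i _ => Finset.sum_nonneg fun j _ => abs_nonneg _) (Finset.mem_univ i))
      exact Finset.single_le_sum (f := fun j => |a2 i j|) (fun j _ => abs_nonneg _)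
        (Finset.mem_univ j)
    set U : Set ℂ := {y : ℂ | |y.re| < 1 ∧ A < y.im} with hU
    have hUo : IsOpen U := (isOpen_lt (Complex.continuous_re.abs) continuous_const).inter
      (isOpen_lt continuous_const Complex.continuous_im)
    refine cont_map V (fun _ => cm N) (fun i j z _ => analyticAt_const) p (p - 1) U hUo
      ⟨⟨0, A + 1⟩, by simp [hU]⟩ (fun y hy => ?_) ?_
    · exact lt_of_le_of_lt ((le_max_left _ _).trans (le_max_right _ _)) hy.2
    · rintro y ⟨hy1, hy2⟩
      have e1 : a < y.im := lt_of_le_of_lt (((le_max_left _ _).trans (le_max_left _ _)).trans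
        (le_max_left _ _)) hy2
      have e2 : a' < y.im := lt_of_le_of_lt (((le_max_right _ _).trans (le_max_left _ _)).trans
        (le_max_left _ _)) hy2
      have e3 : a1 < y.im := lt_of_le_of_lt (((le_max_left _ _).trans (le_max_right _ _)).trans
        (le_max_left _ _)) hy2
      have e4 : a1' < y.im := lt_of_le_of_lt (((le_max_right _ _).trans (le_max_right _ _)).trans
        (le_max_left _ _)) hy2
      rw [hF y e1, hF' y e2]
      have m0 : minor (uexp (cm N) y * W (qq y)) f0 ≠ 0 := by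
        have h1 := ha1 y hy1.le e3
        have h2 : M y f0 = minor (uexp (cm N) y * W (qq y)) f0 := congrFun (hk y (W (qq y))) f0
        rw [← h2]
        intro h3
        rw [h3, norm_zero] at h1
        linarith
      have m1 : minor (uexp (cm N) y * W' (qq y)) f1 ≠ 0 := by
        have h1 := ha1' y hy1.le e4
        have h2 : M' y f1 = minor (uexp (cm N) y * W' (qq y)) f1 := congrFun (hk' y (W' (qq y))) f1
        rw [← h2]
        intro h3
        rw [h3, norm_zero] at h1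
        linarith
      refine maps_of_bd (cm N) _ f1 m1 _ f0 m0 fun i j => ?_
      have h1 := ha2 i j y (lt_of_le_of_lt (hA2 i j) hy2)
      have h2 : M y = minor (uexp (cm N) y * W (qq y)) := hk y (W (qq y))
      have h3 : M' y = minor (uexp (cm N) y * W' (qq y)) := hk' y (W' (qq y))
      rw [← h2, ← h3]
      exact h1
  · -- some defect is not eventually zero: Liouville
    push Not at hall
    obtain ⟨i0, j0, hnz⟩ := hall
    have hnz' : ¬ ∃ a2 : ℝ, ∀ y : ℂ, a2 < y.im → b i0 j0 y = 0 := by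
      rintro ⟨a2, ha2⟩
      obtain ⟨y, hy1, hy2⟩ := hnz a2
      exact hy2 (ha2 y hy1)
    obtain ⟨m, hm1, hm2, hm3⟩ := (hbz i0 j0).logderiv hnz'
    obtain ⟨a3, ha3⟩ := hm1 1 one_pos
    have hm : 1 ≤ m := by
      by_contra hm0
      have hm0' : m = 0 := by omega
      obtain ⟨η, hη, a4, ha4⟩ := hm2 hm0'
      have h1 := (hb0 i0 j0).norm
      rw [norm_zero] at h1
      obtain ⟨a5, ha5⟩ := zl_ev.1 (h1.eventually_lt_const hη)
      have h2 := ha4 ⟨0, max a4 a5 + 1⟩ (by simp) (by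
        show a4 < max a4 a5 + 1
        have := le_max_left a4 a5
        linarith)
      have h3 := ha5 ⟨0, max a4 a5 + 1⟩ (by simp) (by
        show a5 < max a4 a5 + 1
        have := le_max_right a4 a5
        linarith)
      linarith
    obtain ⟨a4, ha4⟩ := hm3 hm
    -- the family of CM points
    set A0 : ℝ := max (max (max a a') (max a1 a1')) 0 with hA0
    have g1 : a ≤ A0 := ((le_max_left _ _).trans (le_max_left _ _)).trans (le_max_left _ _)
    have g2 : a' ≤ A0 := ((le_max_right _ _).trans (le_max_left _ _)).trans (le_max_left _ _)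
    have g3 : a1 ≤ A0 := ((le_max_left _ _).trans (le_max_right _ _)).trans (le_max_left _ _)
    have g4 : a1' ≤ A0 := ((le_max_right _ _).trans (le_max_right _ _)).trans (le_max_left _ _)
    let I : Type := {i : ℂ × ℝ // |i.1.re| ≤ 1 ∧ A0 < i.1.im ∧ 1 ≤ i.2 ∧ IsCM V i.1 i.2}
    let HI : I → ℝ := fun i => i.1.2
    have hHI : ∀ i, 1 ≤ HI i := fun i => i.2.2.2.1
    have hAex : ∀ i : I, ∃ A : Matrix (Fin n) (Fin n) ℤ, (∀ a b, |(A a b : ℝ)| ≤ HI i) ∧
        (im A).charpoly.Separable ∧ ∀ p, ∀ x ∈ V.F p i.1.1, (im A) *ᵥ x ∈ V.F p i.1.1 :=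
      fun i => i.2.2.2.2
    choose AA hA1 hA2 hA3 using hAex
    have hMn : ∀ i : I, minor (uexp (cm N) i.1.1 * W (qq i.1.1)) f0 ≠ 0 := by
      intro i
      have h1 := ha1 i.1.1 i.2.1 (lt_of_le_of_lt g3 i.2.2.1)
      have h2 : M i.1.1 f0 = minor (uexp (cm N) i.1.1 * W (qq i.1.1)) f0 :=
        congrFun (hk i.1.1 (W (qq i.1.1))) f0
      rw [← h2]
      intro h3
      rw [h3, norm_zero] at h1
      linarith
    have hMn' : ∀ i : I, minor (uexp (cm N) i.1.1 * W' (qq i.1.1)) f1 ≠ 0 := by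
      intro i
      have h1 := ha1' i.1.1 i.2.1 (lt_of_le_of_lt g4 i.2.2.1)
      have h2 : M' i.1.1 f1 = minor (uexp (cm N) i.1.1 * W' (qq i.1.1)) f1 :=
        congrFun (hk' i.1.1 (W' (qq i.1.1))) f1
      rw [← h2]
      intro h3
      rw [h3, norm_zero] at h1
      linarith
    obtain ⟨c, hcne, hc⟩ := plucker_alg (I := I) (H := HI) hHI AA hA1 hA2
      (fun i => uexp (cm N) i.1.1 * W (qq i.1.1)) (fun i => linInd_of_minor_ne _ f0 (hMn i)) (by
        intro i x hx
        rw [← hF i.1.1 (lt_of_le_of_lt g1 i.2.2.1)] at hx ⊢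
        exact hA3 i p x hx)
    obtain ⟨c', hcne', hc'⟩ := plucker_alg (I := I) (H := HI) hHI AA hA1 hA2
      (fun i => uexp (cm N) i.1.1 * W' (qq i.1.1)) (fun i => linInd_of_minor_ne _ f1 (hMn' i)) (by
        intro i x hx
        rw [← hF' i.1.1 (lt_of_le_of_lt g2 i.2.2.1)] at hx ⊢
        exact hA3 i (p - 1) x hx)
    have hcM : ∀ f, AlgFam HI (fun i => c i * M i.1.1 f) := by
      intro f
      have h1 : (fun i : I => c i * M i.1.1 f) =
          fun i => c i * minor (uexp (cm N) i.1.1 * W (qq i.1.1)) f := by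
        funext i
        rw [← congrFun (hk i.1.1 (W (qq i.1.1))) f]
      rw [h1]
      exact hc f
    have hcM' : ∀ f, AlgFam HI (fun i => c' i * M' i.1.1 f) := by
      intro f
      have h1 : (fun i : I => c' i * M' i.1.1 f) =
          fun i => c' i * minor (uexp (cm N) i.1.1 * W' (qq i.1.1)) f := by
        funext i
        rw [← congrFun (hk' i.1.1 (W' (qq i.1.1))) f]
      rw [h1]
      exact hc' f
    have hcb := alg_bd hHI N (fun i : I => M' i.1.1) c' hcM' f1 (fun i : I => M i.1.1) c hcM f0 i0 j0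
    obtain ⟨C0, hC0, hl0⟩ := hcb.lower hHI
    obtain ⟨C1, hC1, hu1⟩ := (hcM f0).upper hHI
    obtain ⟨C2, hC2, hu2⟩ := (hcM' f1).upper hHI
    obtain ⟨δ, hδ, Y, hY, hgr⟩ := growth (C0 * (C1 / ε) * (C2 / ε')) (by positivity)
      (C0 + C1 + C2)
    refine ⟨δ, hδ, max (max Y A0) (max a3 a4), fun z H hre him hH1 hcm hHle => ?_⟩
    exfalso
    have k1 : Y < z.im := lt_of_le_of_lt ((le_max_left _ _).trans (le_max_left _ _)) him
    have k2 : A0 < z.im := lt_of_le_of_lt ((le_max_right _ _).trans (le_max_left _ _)) him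
    have k3 : a3 < z.im := lt_of_le_of_lt ((le_max_left _ _).trans (le_max_right _ _)) him
    have k4 : a4 < z.im := lt_of_le_of_lt ((le_max_right _ _).trans (le_max_right _ _)) him
    let i : I := ⟨(z, H), hre, k2, hH1, hcm⟩
    have hbne : b i0 j0 z ≠ 0 := (ha3 z hre k3).2.1
    have hble : ‖b i0 j0 z‖ ≤ Real.exp (-z.im) := ha4 z hre k4
    have hMl : ε ≤ ‖M z f0‖ := ha1 z hre (lt_of_le_of_lt g3 k2)
    have hMl' : ε' ≤ ‖M' z f1‖ := ha1' z hre (lt_of_le_of_lt g4 k2)
    have n1 : ‖c i‖ ≤ C1 / ε * H ^ C1 := by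
      have h1 : ‖c i * M z f0‖ ≤ C1 * H ^ C1 := hu1 i
      rw [norm_mul] at h1
      have h2 : ‖c i‖ * ε ≤ C1 * H ^ C1 :=
        (mul_le_mul_of_nonneg_left hMl (norm_nonneg _)).trans h1
      rw [div_mul_eq_mul_div, le_div_iff₀ hε]
      exact h2
    have n2 : ‖c' i‖ ≤ C2 / ε' * H ^ C2 := by
      have h1 : ‖c' i * M' z f1‖ ≤ C2 * H ^ C2 := hu2 i
      rw [norm_mul] at h1
      have h2 : ‖c' i‖ * ε' ≤ C2 * H ^ C2 :=
        (mul_le_mul_of_nonneg_left hMl' (norm_nonneg _)).trans h1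
      rw [div_mul_eq_mul_div, le_div_iff₀ hε']
      exact h2
    have hci : c' i * c i * b i0 j0 z ≠ 0 := mul_ne_zero (mul_ne_zero (hcne' i) (hcne i)) hbne
    have n3 : 1 ≤ C0 * H ^ C0 * ‖c' i * c i * b i0 j0 z‖ := hl0 i hci
    have n4 : ‖c' i * c i * b i0 j0 z‖ ≤
        (C2 / ε' * H ^ C2) * (C1 / ε * H ^ C1) * Real.exp (-z.im) := by
      rw [norm_mul, norm_mul]
      have hHp : (0 : ℝ) ≤ H := by linarith
      exact mul_le_mul (mul_le_mul n2 n1 (norm_nonneg _) (by positivity)) hble (norm_nonneg _)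
        (by positivity)
    have n5 := hgr z.im H k1 hH1 hHle
    have hHp : (0 : ℝ) ≤ H := by linarith
    have n6 : 1 ≤ (C0 * (C1 / ε) * (C2 / ε') * H ^ (C0 + C1 + C2)) * Real.exp (-z.im) := by
      calc (1 : ℝ) ≤ C0 * H ^ C0 * ‖c' i * c i * b i0 j0 z‖ := n3
        _ ≤ C0 * H ^ C0 * ((C2 / ε' * H ^ C2) * (C1 / ε * H ^ C1) * Real.exp (-z.im)) :=
          mul_le_mul_of_nonneg_left n4 (by positivity)
        _ = (C0 * (C1 / ε) * (C2 / ε') * H ^ (C0 + C1 + C2)) * Real.exp (-z.im) := by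
          rw [pow_add, pow_add]
          ring
    have n7 : (C0 * (C1 / ε) * (C2 / ε') * H ^ (C0 + C1 + C2)) * Real.exp (-z.im) < 1 := by
      calc (C0 * (C1 / ε) * (C2 / ε') * H ^ (C0 + C1 + C2)) * Real.exp (-z.im)
          < Real.exp z.im * Real.exp (-z.im) := mul_lt_mul_of_pos_right n5 (Real.exp_pos _)
        _ = 1 := by rw [← Real.exp_add, add_neg_cancel, Real.exp_zero]
    linarith

end MP2794d1.OC
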