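import Pool.Agent.Lib.MP_2794d1_ag.OC.OC4
import Pool.Agent.Lib.MP_2794d1_ag.AN.G2
import Pool.Agent.Lib.MP_2794d1_ag.R04
import Pool.Agent.Lib.MP_2794d1_ag.U04

/-!
OC5: assembly. All `p` at once; the translation into the strip and the complexity instead of the height; the conjugates of `N`
by equivariance; the ideal spanned by them; the case of a Lie algebra simple modulo its centre.
-/

namespace MP2794d1.OC

open Matrix Complex Filter Topology

/-- The rational span of the conjugates `ρ(g) N ρ(g)⁻¹`, `g ∈ Δ`, of the logarithm `N` of the local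
monodromy: the logarithms of the monodromy at all the translates of the cusp. -/
noncomputable def monSpan {n : ℕ} (V : PolVHS n) (N : Matrix (Fin n) (Fin n) ℚ) :
    Submodule ℚ (Matrix (Fin n) (Fin n) ℚ) :=
  Submodule.span ℚ (Set.range fun g : V.grp => qm (V.rho g : Matrix (Fin n) (Fin n) ℤ) * N *
    qm (V.rho g⁻¹ : Matrix (Fin n) (Fin n) ℤ))

/-- Every element of the rational space `s` maps `F^p` into `F^(p-1)` at every point: `s` is
contained in `F^(-1) End`, so it has only the Hodge types `(-1,1), (0,0), (1,-1)` because it is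
real. -/
def Horizontal {n : ℕ} (V : PolVHS n) (s : Submodule ℚ (Matrix (Fin n) (Fin n) ℚ)) : Prop :=
  ∀ z : ℂ, 0 < z.im → ∀ X ∈ s, ∀ p, ∀ x ∈ V.F p z, (cm X) *ᵥ x ∈ V.F (p - 1) z

theorem one_cusp {n : ℕ} (V : PolVHS n) (c : Cusp V) :
    ∃ δ : ℝ, 0 < δ ∧ ∃ Y : ℝ, ∀ (z : ℂ) (H : ℝ), |z.re| ≤ 1 → Y < z.im → 1 ≤ H → IsCM V z H →
      H ≤ Real.exp (δ * z.im) →
      ∀ y : ℂ, 0 < y.im → ∀ p, ∀ x ∈ V.F p y, cm c.N *ᵥ x ∈ V.F (p - 1) y := by
  choose r W aF hWan hWli hWF using c.ext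
  have hF : ∀ p, ∀ z : ℂ, aF p < z.im →
      V.F p z = LinearMap.range (uexp (cm c.N) z * W p (qq z)).mulVecLin := fun p z hz =>
    hWF p z hz
  choose δp hδp Yp hp using fun p => one_p V c.N c.nil p (W p) (W (p - 1)) (aF p) (aF (p - 1))
    (hWan p) (hWan (p - 1)) (hWli p) (hWli (p - 1)) (hF p) (hF (p - 1))
  obtain ⟨δ, hδ, hδle⟩ := C12b_min (Finset.Icc V.lo V.hi) δp hδp
  obtain ⟨Y, hYle⟩ := C12b_max (Finset.Icc V.lo V.hi) Yp
  refine ⟨δ, hδ, max Y 0, fun z H hre him hH hcm hle y hy p x hx => ?_⟩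
  have hz0 : 0 < z.im := lt_of_le_of_lt (le_max_right _ _) him
  by_cases h1 : p ∈ Finset.Icc V.lo V.hi
  · refine hp p z H hre (lt_of_le_of_lt ((hYle p h1).trans (le_max_left _ _)) him) hH hcm
      (hle.trans ?_) y hy x hx
    exact Real.exp_le_exp.2 (mul_le_mul_of_nonneg_right (hδle p h1) hz0.le)
  · rw [Finset.mem_Icc, not_and_or, not_le, not_le] at h1
    rcases h1 with h1 | h1
    · have h2 : V.F (p - 1) y = ⊤ := by
        rw [eq_top_iff, ← V.F_lo y hy]
        exact (V.phs y hy).anti _ _ (by omega)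
      rw [h2]
      trivial
    · have h2 : x ∈ V.F V.hi y := (V.phs y hy).anti _ _ h1.le hx
      rw [V.F_hi y hy, Submodule.mem_bot] at h2
      rw [h2, Matrix.mulVec_zero]
      exact (V.F (p - 1) y).zero_mem

theorem one_complexity {n : ℕ} (V : PolVHS n) (c : UCusp V) (hN : c.N ≠ 0) :
    ∃ δ : ℝ, 0 < δ ∧ ∃ Y : ℝ, ∀ (z : ℂ) (H : ℝ), Y < z.im → 0 ≤ H → IsCMc V z H →
      H ≤ Real.exp (δ * z.im) →
      ∀ y : ℂ, 0 < y.im → ∀ p, ∀ x ∈ V.F p y, cm c.N *ᵥ x ∈ V.F (p - 1) y := by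
  obtain ⟨c', -, hc'⟩ := exists_cusp V c
  obtain ⟨δ₀, hδ₀, Y₀, hst⟩ := one_cusp V c'
  obtain ⟨C, K, Y₁, hC, hK, hY₁, hht⟩ := cm_height V c hN
  have hK0 : (0 : ℝ) < K := by exact_mod_cast hK
  have hC0 : 0 < C := lt_of_lt_of_le one_pos hC
  set Y₂ : ℝ := 2 * Real.log C / δ₀ with hY₂
  refine ⟨δ₀ / (2 * K), by positivity, max Y₀ (max Y₁ Y₂), fun z H him hH0 hcm hle => ?_⟩
  have k0 : Y₀ < z.im := lt_of_le_of_lt (le_max_left _ _) him
  have k1 : Y₁ < z.im := lt_of_le_of_lt ((le_max_left _ _).trans (le_max_right _ _)) him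
  have k2 : Y₂ < z.im := lt_of_le_of_lt ((le_max_right _ _).trans (le_max_right _ _)) him
  have hz : 0 < z.im := by linarith
  -- replace `H` by `max 1 H`
  set H' : ℝ := max 1 H with hH'
  have hH1 : 1 ≤ H' := le_max_left _ _
  have hcm1 : IsCMc V z H' := by
    obtain ⟨A, hA1, hA2, hA3⟩ := hcm
    exact ⟨A, hA1, hA2, hA3.trans (pow_le_pow_left₀ hH0 (le_max_right _ _) 2)⟩
  have hle' : H' ≤ Real.exp (δ₀ / (2 * K) * z.im) := by
    apply max_le _ hle
    apply Real.one_le_exp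
    positivity
  -- translate into the strip
  set m : ℤ := -round z.re with hm
  set z' : ℂ := z + (m : ℂ) with hz'
  have him' : z'.im = z.im := by simp [hz']
  have hre' : |z'.re| ≤ 1 := by
    have h1 : z'.re = z.re - round z.re := by simp [hz', hm, sub_eq_add_neg]
    rw [h1]
    exact (abs_sub_round z.re).trans (by norm_num)
  have hcm' : IsCM V z' (C * H' ^ K) := by
    apply hht z' hre' (by rw [him']; exact k1.le) H' hH1
    exact isCMc_shift V c z hz H' m hcm1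
  have hpow : 1 ≤ H' ^ K := one_le_pow₀ hH1
  have h1 : 1 ≤ C * H' ^ K := by nlinarith
  have h2 : C * H' ^ K ≤ Real.exp (δ₀ * z'.im) := by
    have e1 : H' ^ K ≤ Real.exp (δ₀ / 2 * z.im) := by
      calc H' ^ K ≤ (Real.exp (δ₀ / (2 * K) * z.im)) ^ K := pow_le_pow_left₀ (by linarith) hle' K
        _ = Real.exp (δ₀ / 2 * z.im) := by
          rw [← Real.exp_nat_mul]
          congr 1
          field_simp
    have e2 : C ≤ Real.exp (δ₀ / 2 * z.im) := by
      have h5 : Real.log C ≤ δ₀ / 2 * z.im := by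
        have h6 : Y₂ * (δ₀ / 2) = Real.log C := by
          rw [hY₂]
          field_simp
        nlinarith
      calc C = Real.exp (Real.log C) := (Real.exp_log hC0).symm
        _ ≤ _ := Real.exp_le_exp.2 h5
    calc C * H' ^ K ≤ Real.exp (δ₀ / 2 * z.im) * Real.exp (δ₀ / 2 * z.im) :=
          mul_le_mul e2 e1 (by linarith) (Real.exp_pos _).le
      _ = Real.exp (δ₀ * z'.im) := by
        rw [← Real.exp_add, him']
        congr 1
        ring
  rw [← hc']
  exact hst z' _ hre' (by rw [him']; exact k0) h1 hcm' h2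

theorem cm_mul' {n : ℕ} (X Y : Matrix (Fin n) (Fin n) ℚ) : cm (X * Y) = cm X * cm Y := by
  ext i j
  simp [cm, Matrix.mul_apply]

theorem cm_qm' {n : ℕ} (X : Matrix (Fin n) (Fin n) ℤ) : cm (qm X) = im X := by
  ext i j
  simp [cm, qm, im]

/-- the conjugates of `N` -/
theorem conj_trans {n : ℕ} (V : PolVHS n) (N : Matrix (Fin n) (Fin n) ℚ)
    (h : ∀ y : ℂ, 0 < y.im → ∀ p, ∀ x ∈ V.F p y, cm N *ᵥ x ∈ V.F (p - 1) y) :
    Horizontal V (monSpan V N) := by
  intro z hz X hX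
  induction hX using Submodule.span_induction with
  | mem X hX =>
    obtain ⟨g, rfl⟩ := hX
    intro p x hx
    obtain ⟨h1, h2⟩ := F08_rho V g
    set ρ := im (V.rho g : Matrix (Fin n) (Fin n) ℤ) with hρ
    set ρ' := im (V.rho g⁻¹ : Matrix (Fin n) (Fin n) ℤ) with hρ'
    have hw : 0 < (mob ((g⁻¹ : V.grp) : Matrix.SpecialLinearGroup (Fin 2) ℝ) z).im :=
      mob_im_pos _ z hz
    have h3 : ρ' *ᵥ x ∈ V.F p (mob ((g⁻¹ : V.grp) : Matrix.SpecialLinearGroup (Fin 2) ℝ) z) := by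
      rw [V.equiv g⁻¹ p z hz]
      exact ⟨x, hx, rfl⟩
    have h4 := h _ hw p _ h3
    rw [V.equiv g⁻¹ (p - 1) z hz] at h4
    obtain ⟨y, hy, hy2⟩ := h4
    rw [Matrix.mulVecLin_apply] at hy2
    have h5 : cm (qm (V.rho g : Matrix (Fin n) (Fin n) ℤ) * N *
        qm (V.rho g⁻¹ : Matrix (Fin n) (Fin n) ℤ)) = ρ * cm N * ρ' := by
      rw [cm_mul', cm_mul', cm_qm', cm_qm']
    rw [h5, ← Matrix.mulVec_mulVec, ← Matrix.mulVec_mulVec, ← hy2, Matrix.mulVec_mulVec, h1,
      Matrix.one_mulVec]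
    exact hy
  | zero =>
    intro p x _
    have h1 : cm (0 : Matrix (Fin n) (Fin n) ℚ) = 0 := by
      ext i j
      simp [cm]
    rw [h1, Matrix.zero_mulVec]
    exact (V.F (p - 1) z).zero_mem
  | add X Y _ _ h1 h2 =>
    intro p x hx
    have h3 : cm (X + Y) = cm X + cm Y := by
      ext i j
      simp [cm]
    rw [h3, Matrix.add_mulVec]
    exact (V.F (p - 1) z).add_mem (h1 p x hx) (h2 p x hx)
  | smul q X _ h1 =>
    intro p x hx
    have h3 : cm (q • X) = (q : ℂ) • cm X := by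
      ext i j
      simp [cm]
    rw [h3, Matrix.smul_mulVec]
    exact (V.F (p - 1) z).smul_mem _ (h1 p x hx)

theorem exists_grading {n : ℕ} (V : PolVHS n) (z : ℂ) (hz : 0 < z.im) :
    ∃ μ, IsGrading V z μ ∧ μ ∈ cx (genericMT V : Set (Matrix (Fin n) (Fin n) ℚ)) := by
  obtain ⟨μ, hμ⟩ := exists_gr (V.phs z hz)
  have h1 : IsGrading V z μ := fun p x hx => hμ p x hx
  refine ⟨μ, h1, (mem_cx_iff (genericMT V) μ).2 fun l => ?_⟩
  unfold genericMT
  rw [Submodule.mem_sInf]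
  intro m hm
  exact (mem_cx_iff m μ).1 (hm.2 z hz μ h1) l

/-- a central element of the generic Mumford-Tate Lie algebra preserves the Hodge filtration -/
theorem central {n : ℕ} (V : PolVHS n) (Z : Matrix (Fin n) (Fin n) ℚ)
    (hZ : ∀ X ∈ genericMT V, Z * X = X * Z) (z : ℂ) (hz : 0 < z.im) (p : ℤ) (x : Fin n → ℂ)
    (hx : x ∈ V.F p z) : cm Z *ᵥ x ∈ V.F p z := by
  obtain ⟨μ, hμ, hmem⟩ := exists_grading V z hz
  have key : ∀ ν ∈ cx (genericMT V : Set (Matrix (Fin n) (Fin n) ℚ)), br ν (cm Z) = 0 := by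
    intro ν hν
    unfold cx at hν
    induction hν using Submodule.span_induction with
    | mem Y hY =>
      obtain ⟨X, hX, rfl⟩ := hY
      unfold br
      rw [← cm_mul', ← cm_mul', hZ X hX, sub_self]
    | zero => simp [br]
    | add A B _ _ h1 h2 =>
      have h3 : br (A + B) (cm Z) = br A (cm Z) + br B (cm Z) := by
        simp only [br, Matrix.add_mul, Matrix.mul_add]
        abel
      rw [h3, h1, h2, add_zero]
    | smul a A _ h1 =>
      have h3 : br (a • A) (cm Z) = a • br A (cm Z) := by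
        simp only [br, Matrix.smul_mul, Matrix.mul_smul, smul_sub]
      rw [h3, h1, smul_zero]
  have h2 := FEnd0_of_comm (V.phs z hz) (fun p x hx => hμ p x hx) (cm Z) (key μ hmem) p x hx
  simpa using h2

/-- The rational span `s = monSpan V N` of the logarithms of the monodromy at the translates of the
cusp is a perfect ideal of the generic Mumford-Tate Lie algebra, with all its Hodge types among
`(-1,1), (0,0), (1,-1)` at every point; if the generic Mumford-Tate Lie algebra is simple modulo its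
centre, it is itself of these Hodge types at every point. -/
structure ShimuraIdeal {n : ℕ} (V : PolVHS n) (N : Matrix (Fin n) (Fin n) ℚ) : Prop where
  /-- `genericMT V` contains the Hodge gradings (after extension of scalars) -/
  grading : ∀ z : ℂ, 0 < z.im → ∃ μ, IsGrading V z μ ∧
    μ ∈ cx (genericMT V : Set (Matrix (Fin n) (Fin n) ℚ))
  /-- it is a Lie algebra -/
  lie : IsLie (genericMT V)
  /-- `N` belongs to the span of its conjugates -/
  mem : N ∈ monSpan V N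
  /-- the span is contained in `genericMT V` -/
  le : monSpan V N ≤ genericMT V
  /-- it is an ideal -/
  ideal : ∀ X ∈ genericMT V, ∀ Y ∈ monSpan V N, X * Y - Y * X ∈ monSpan V N
  /-- it is perfect -/
  perfect : monSpan V N ≤ Submodule.span ℚ
    {Z | ∃ X ∈ monSpan V N, ∃ Y ∈ monSpan V N, Z = X * Y - Y * X}
  /-- it maps `F^p` into `F^(p-1)` at every point -/
  hor : Horizontal V (monSpan V N)
  /-- the simple case -/
  simple : AN.SimpleMT V → Horizontal V (genericMT V)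

theorem monSpan_eq {n : ℕ} {V : PolVHS n} (c : Cusp V) : monSpan V c.N = AN.sN c := rfl

theorem shimuraIdeal_of {n : ℕ} (V : PolVHS n) (hΔ : FiniteType V.grp) (c : Cusp V)
    (hN : c.N ≠ 0)
    (h : ∀ y : ℂ, 0 < y.im → ∀ p, ∀ x ∈ V.F p y, cm c.N *ᵥ x ∈ V.F (p - 1) y) :
    ShimuraIdeal V c.N := by
  obtain ⟨h1, h2, h3, -⟩ := AN.normality V hΔ c
  have hhor : Horizontal V (monSpan V c.N) := conj_trans V c.N h
  refine ⟨exists_grading V, S10_lie V, ?_, h1, h2, ?_, hhor, fun hs => ?_⟩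
  · have h4 : c.conj 1 ∈ AN.sN c := Submodule.subset_span ⟨1, rfl⟩
    have h5 : c.conj 1 = c.N := by simp [Cusp.conj]
    rw [h5] at h4
    exact h4
  · have h4 : AN.sN c ≤ AN.brs (AN.sN c) (AN.sN c) := h3.ge
    exact h4
  · intro z hz X hX p x hx
    obtain ⟨Y, hY, hc⟩ := AN.hgen_of_simple V hΔ c hN hs X hX
    have h4 : cm Y *ᵥ x ∈ V.F (p - 1) z := hhor z hz Y hY p x hx
    have h5 : cm (X - Y) *ᵥ x ∈ V.F p z := central V (X - Y) hc z hz p x hx
    have h6 : cm (X - Y) *ᵥ x ∈ V.F (p - 1) z := (V.phs z hz).anti (p - 1) p (by omega) h5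
    have h7 : cm X = cm (X - Y) + cm Y := by
      ext i j
      simp [cm]
    rw [h7, Matrix.add_mulVec]
    exact (V.F (p - 1) z).add_mem h6 h4

theorem main {n : ℕ} (V : PolVHS n) (hΔ : FiniteType V.grp) (c : UCusp V) (hN : c.N ≠ 0) :
    ∃ δ : ℝ, 0 < δ ∧ ∃ Y : ℝ, ∀ (z : ℂ) (H : ℝ), Y < z.im → 0 ≤ H → IsCMc V z H →
      H ≤ Real.exp (δ * z.im) → ShimuraIdeal V c.N := by
  obtain ⟨c', -, hc'⟩ := exists_cusp V c
  obtain ⟨δ, hδ, Y, h⟩ := one_complexity V c hN
  refine ⟨δ, hδ, Y, fun z H h1 h2 h3 h4 => ?_⟩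
  rw [← hc'] at hN ⊢
  refine shimuraIdeal_of V hΔ c' hN fun y hy p x hx => ?_
  rw [hc']
  exact h z H h1 h2 h3 h4 y hy p x hx

end MP2794d1.OC
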